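import Pool.Agent.H17.FR.Targets
import Pool.Agent.H76.KN.V5
import Pool.Agent.H64.SC.Api

/-! # The integral closure of a discrete valuation ring of a function field (helper62, MP_f2954d_ag) -/

set_option autoImplicit false
set_option linter.overlappingInstances false

namespace Pool.Agent.H62.FR

open _root_.SC IsDedekindDomain Pool.Agent.H76.KN

section dvr

variable {k E : Type} [Field k] [Field E] [Algebra k E] (Q : DV k E)

/-- a uniformizer in the valuation ring -/
noncomputable def tt : Q.vs := ⟨Q.unif, by rw [Q.mem_vs, Q.ord_unif]; norm_num⟩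

lemma tt_coe : ((tt Q : Q.vs) : E) = Q.unif := rfl

lemma tt_ne : tt Q ≠ 0 := by
  intro h
  exact Q.unif_ne_zero (congrArg Subtype.val h)

lemma not_unit_tt : ¬ IsUnit (tt Q) := by
  rw [DV.isUnit_vs_iff, tt_coe, Q.ord_unif]
  simp

lemma factor (x : Q.vs) (hx : x ≠ 0) : ∃ (n : ℕ) (u : Q.vs), IsUnit u ∧ x = tt Q ^ n * u ∧
    Q.ord (x : E) = n := by
  have hx0 : (x : E) ≠ 0 := fun h => hx (Subtype.ext h)
  have h0 : 0 ≤ Q.ord (x : E) := x.2
  have hz : Q.ord ((x : E) * Q.unif ^ (- Q.ord (x : E))) = 0 := by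
    rw [Q.ord_mul' hx0 (Q.unif_zpow_ne_zero _), Q.ord_unif_zpow]; ring
  refine ⟨(Q.ord (x : E)).toNat, ⟨(x : E) * Q.unif ^ (- Q.ord (x : E)), by rw [Q.mem_vs, hz]⟩, ?_, ?_, ?_⟩
  · rw [DV.isUnit_vs_iff]
    exact ⟨mul_ne_zero hx0 (Q.unif_zpow_ne_zero _), hz⟩
  · apply Subtype.ext
    push_cast
    rw [tt_coe, ← zpow_natCast, Int.toNat_of_nonneg h0, mul_comm, mul_assoc,
      ← zpow_add₀ Q.unif_ne_zero]
    simp
  · rw [Int.toNat_of_nonneg h0]

lemma dvd_iff (x y : Q.vs) (hx : x ≠ 0) (hy : y ≠ 0) : x ∣ y ↔ Q.ord (x : E) ≤ Q.ord (y : E) := by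
  have hx0 : (x : E) ≠ 0 := fun h => hx (Subtype.ext h)
  have hy0 : (y : E) ≠ 0 := fun h => hy (Subtype.ext h)
  constructor
  · rintro ⟨z, rfl⟩
    have hz : (z : E) ≠ 0 := by
      intro h
      apply hy0
      push_cast
      rw [h, mul_zero]
    have : 0 ≤ Q.ord (z : E) := z.2
    push_cast
    rw [Q.ord_mul' hx0 hz]
    omega
  · intro h
    refine ⟨⟨(y : E) / (x : E), ?_⟩, ?_⟩
    · rw [Q.mem_vs, Q.ord_div hy0 hx0]; omega
    · apply Subtype.ext
      push_cast
      field_simp

instance isDVR : IsDiscreteValuationRing Q.vs := by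
  apply IsDiscreteValuationRing.ofHasUnitMulPowIrreducibleFactorization
  refine ⟨tt Q, ?_, ?_⟩
  · refine ⟨not_unit_tt Q, ?_⟩
    intro a b hab
    have ha : a ≠ 0 := by
      rintro rfl
      rw [zero_mul] at hab
      exact tt_ne Q hab
    have hb : b ≠ 0 := by
      rintro rfl
      rw [mul_zero] at hab
      exact tt_ne Q hab
    have ha0 : (a : E) ≠ 0 := fun h => ha (Subtype.ext h)
    have hb0 : (b : E) ≠ 0 := fun h => hb (Subtype.ext h)
    have h1 : Q.unif = (a : E) * b := by
      have := congrArg Subtype.val hab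
      exact this
    have h2 : Q.ord (a : E) + Q.ord (b : E) = 1 := by
      rw [← Q.ord_mul' ha0 hb0, ← h1, Q.ord_unif]
    have h3 : 0 ≤ Q.ord (a : E) := a.2
    have h4 : 0 ≤ Q.ord (b : E) := b.2
    rw [DV.isUnit_vs_iff, DV.isUnit_vs_iff]
    rcases h3.lt_or_eq with h5 | h5
    · right
      exact ⟨hb0, by omega⟩
    · left
      exact ⟨ha0, h5.symm⟩
  · intro x hx
    obtain ⟨n, u, ⟨v, rfl⟩, hxu, -⟩ := factor Q x hx
    exact ⟨n, v, hxu.symm⟩

lemma maximalIdeal_eq (t : Q.vs) (ht : Q.ord (t : E) = 1) :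
    IsLocalRing.maximalIdeal Q.vs = Ideal.span {t} := by
  have ht0 : t ≠ 0 := by
    rintro rfl
    rw [show ((0 : Q.vs) : E) = 0 from rfl, Q.ord_zero] at ht
    omega
  ext x
  rw [IsLocalRing.mem_maximalIdeal, mem_nonunits_iff, DV.isUnit_vs_iff, Ideal.mem_span_singleton]
  by_cases hx : x = 0
  · subst hx
    simp
  · have hx0 : (x : E) ≠ 0 := fun h => hx (Subtype.ext h)
    rw [dvd_iff Q t x ht0 hx, ht]
    have : 0 ≤ Q.ord (x : E) := x.2
    simp only [ne_eq, hx0, not_false_eq_true, true_and]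
    omega

end dvr

section ext

variable {k E L : Type} [Field k] [Field E] [Field L] [Algebra k E] [Algebra k L]
  [Algebra E L] [IsScalarTower k E L] (Q : DV k E)

instance tower1 : IsScalarTower k Q.vs L := by
  refine IsScalarTower.of_algebraMap_eq fun c => ?_
  rw [IsScalarTower.algebraMap_apply k E L]
  rfl

variable (L) in
/-- the integral closure -/
abbrev BB : Type := integralClosure Q.vs L

variable [CharZero k] [FiniteDimensional E L]

include k in
lemma sep : Algebra.IsSeparable E L := by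
  have : CharZero E := charZero_of_injective_algebraMap (algebraMap k E).injective
  infer_instance

instance ded : IsDedekindDomain (BB L Q) := by
  have : Algebra.IsSeparable E L := sep (k := k)
  exact integralClosure.isDedekindDomain Q.vs E L

instance frac : IsFractionRing (BB L Q) L := integralClosure.isFractionRing_of_finite_extension E L

instance fin : Module.Finite Q.vs (BB L Q) := by
  have : Algebra.IsSeparable E L := sep (k := k)
  exact IsIntegralClosure.finite Q.vs E L (integralClosure Q.vs L)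

end ext

section overs

variable {k E L : Type} [Field k] [Field E] [Field L] [Algebra k E] [Algebra k L]
  [Algebra E L] [IsScalarTower k E L] [CharZero k] [FiniteDimensional E L] (Q : DV k E)

/-- the place of a prime of the integral closure -/
noncomputable abbrev pl (P : HeightOneSpectrum (BB L Q)) : DV k L := adic k (BB L Q) L P

lemma comap_eq (P : HeightOneSpectrum (BB L Q)) :
    P.asIdeal.comap (algebraMap Q.vs (BB L Q)) = IsLocalRing.maximalIdeal Q.vs := by
  have h1 : (P.asIdeal.comap (algebraMap Q.vs (BB L Q))) ≠ ⊥ := by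
    have hint : Algebra.IsIntegral Q.vs (BB L Q) := inferInstance
    exact Ideal.IsIntegral.comap_ne_bot Q.vs P.ne_bot
  have h2 : (P.asIdeal.comap (algebraMap Q.vs (BB L Q))).IsPrime := inferInstance
  exact IsLocalRing.eq_maximalIdeal (h2.isMaximal h1)

lemma algebraMap_tt : algebraMap (BB L Q) L (algebraMap Q.vs (BB L Q) (tt Q)) =
    algebraMap E L Q.unif := rfl

lemma pl_unif_pos (P : HeightOneSpectrum (BB L Q)) : 0 < (pl Q P).ord (algebraMap E L Q.unif) := by
  have h1 : algebraMap Q.vs (BB L Q) (tt Q) ∈ P.asIdeal := by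
    rw [← Ideal.mem_comap, comap_eq, maximalIdeal_eq Q (tt Q) Q.ord_unif]
    exact Ideal.mem_span_singleton_self _
  rw [adic_pos_iff (k := k) (K := L)] at h1
  rcases h1 with h1 | h1
  · have h2 := congrArg (algebraMap (BB L Q) L) h1
    rw [algebraMap_tt, map_zero, map_eq_zero] at h2
    exact absurd h2 Q.unif_ne_zero
  · exact h1

lemma pl_nonneg (P : HeightOneSpectrum (BB L Q)) (x : E) (hx : 0 ≤ Q.ord x) :
    0 ≤ (pl Q P).ord (algebraMap E L x) :=
  adic_nonneg (k := k) (K := L) P (algebraMap Q.vs (BB L Q) ⟨x, hx⟩)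

lemma pl_ord (P : HeightOneSpectrum (BB L Q)) (x : E) :
    (pl Q P).ord (algebraMap E L x) = (pl Q P).ord (algebraMap E L Q.unif) * Q.ord x := by
  by_cases hx : x = 0
  · rw [hx, map_zero, (pl Q P).ord_zero, Q.ord_zero, mul_zero]
  have h1 : Q.ord (x * Q.unif ^ (- Q.ord x)) = 0 := by
    rw [Q.ord_mul' hx (Q.unif_zpow_ne_zero _), Q.ord_unif_zpow]; ring
  have h2 := pl_nonneg Q P _ h1.ge
  have h3 := pl_nonneg Q P (x * Q.unif ^ (- Q.ord x))⁻¹ (by rw [Q.ord_inv, h1]; simp)
  rw [map_inv₀, (pl Q P).ord_inv] at h3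
  have h4 : (pl Q P).ord (algebraMap E L (x * Q.unif ^ (- Q.ord x))) = 0 := by omega
  rw [map_mul, (pl Q P).ord_mul' (by simpa using hx)
    ((map_ne_zero _).mpr (Q.unif_zpow_ne_zero _)), map_zpow₀, (pl Q P).ord_zpow] at h4
  linarith

lemma pl_over (P : HeightOneSpectrum (BB L Q)) :
    Over Q (pl Q P) ((pl Q P).ord (algebraMap E L Q.unif)).toNat := by
  have h := pl_unif_pos Q P
  refine ⟨by omega, fun x => ?_⟩
  rw [Int.toNat_of_nonneg h.le]
  exact pl_ord Q P x

lemma pl_injective : Function.Injective (pl (L := L) Q) := by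
  intro P P' h
  ext a
  change a ∈ P.asIdeal ↔ a ∈ P'.asIdeal
  rw [adic_pos_iff (k := k) (K := L) P, adic_pos_iff (k := k) (K := L) P']
  change a = 0 ∨ 0 < (pl Q P).ord _ ↔ a = 0 ∨ 0 < (pl Q P').ord _
  rw [h]

lemma exists_pl (P : DV k L) (e : ℕ) (h : Over Q P e) :
    ∃ q : HeightOneSpectrum (BB L Q), pl Q q = P := by
  have hB : ∀ b : BB L Q, 0 ≤ P.ord (algebraMap (BB L Q) L b) := by
    intro b
    apply int_nonneg (R := Q.vs) P
    · intro r
      exact (h.nonneg_iff _).mpr r.2
    · exact b.2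
  refine ⟨⟨center P hB, center_prime P hB, center_ne_bot P hB⟩, ?_⟩
  apply DV.ext
  funext y
  rw [ord_eq_of_center P hB ⟨center P hB, center_prime P hB, center_ne_bot P hB⟩ ?_ y]
  · rfl
  · intro a ha
    change a ∉ center P hB at ha
    rw [mem_center] at ha
    push Not at ha
    exact le_antisymm ha.2 (hB a)

lemma exists_int (y : L) (hy : ∀ q : HeightOneSpectrum (BB L Q), 0 ≤ (pl Q q).ord y) :
    ∃ b : BB L Q, algebraMap (BB L Q) L b = y := by
  apply HeightOneSpectrum.mem_integers_of_valuation_le_one L y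
  intro q
  have h := hy q
  by_cases h0 : q.valuation L y = 0
  · rw [h0]; exact zero_le_one
  · rw [adic_ord, le_neg, neg_zero, WithZero.log_le_iff_le_exp h0, WithZero.exp_zero] at h
    exact h

end overs

theorem int : FR.T_INT := by
  intro k E L _ _ _ _ _ _ _ _ _ Q y hy
  obtain ⟨b, rfl⟩ := exists_int Q y fun q => hy _ ⟨_, pl_over Q q⟩
  exact b.2

end Pool.Agent.H62.FR
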