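import Pool.Agent.H62.FR.Setup

/-! # TR0 (helper62, MP_f2954d_ag) -/

set_option autoImplicit false
set_option linter.overlappingInstances false

namespace Pool.Agent.H62.FR

open _root_.SC IsDedekindDomain Pool.Agent.H76.KN

section traces

variable {k E L : Type} [Field k] [Field E] [Field L] [Algebra k E] [Algebra k L]
  [Algebra E L] [IsScalarTower k E L] [CharZero k] [FiniteDimensional E L] (Q : DV k E)

instance tf : Module.IsTorsionFree Q.vs (BB L Q) := inferInstance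

instance free : Module.Free Q.vs (BB L Q) := Module.free_of_finite_type_torsion_free'

lemma trace_eq (b : BB L Q) : Algebra.trace E L (algebraMap (BB L Q) L b) =
    ((Algebra.trace Q.vs (BB L Q) b : Q.vs) : E) := by
  rw [← Algebra.intTrace_eq_trace (A := Q.vs) (B := BB L Q)]
  exact (Algebra.algebraMap_intTrace (A := Q.vs) (K := E) (B := BB L Q) (L := L) b).symm

/-- the ideal `m B` -/
abbrev mB : Ideal (BB L Q) := (IsLocalRing.maximalIdeal Q.vs).map (algebraMap Q.vs (BB L Q))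

lemma mB_ne_bot : mB (L := L) Q ≠ ⊥ := by
  rw [mB, maximalIdeal_eq Q (tt Q) Q.ord_unif, Ideal.map_span, Set.image_singleton, Ne,
    Ideal.span_singleton_eq_bot]
  intro h
  have h2 := congrArg (algebraMap (BB L Q) L) h
  rw [algebraMap_tt, map_zero, map_eq_zero] at h2
  exact absurd h2 Q.unif_ne_zero

lemma trace_mem (b : BB L Q) (hb : ∀ q : HeightOneSpectrum (BB L Q), b ∈ q.asIdeal) :
    Algebra.trace Q.vs (BB L Q) b ∈ IsLocalRing.maximalIdeal Q.vs := by
  have h1 : b ∈ (mB Q).radical := by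
    rw [Ideal.radical_eq_sInf, Submodule.mem_sInf]
    rintro p ⟨hp1, hp2⟩
    have hpb : p ≠ ⊥ := ne_bot_of_le_ne_bot (mB_ne_bot Q) hp1
    exact hb ⟨p, hp2, hpb⟩
  obtain ⟨n, hn⟩ := h1
  have h2 : IsNilpotent (Ideal.Quotient.mk (mB (L := L) Q) b) := by
    refine ⟨n, ?_⟩
    rw [← map_pow, Ideal.Quotient.eq_zero_iff_mem]
    exact hn
  have h3 := Algebra.isNilpotent_trace_of_isNilpotent (R := Q.vs ⧸ IsLocalRing.maximalIdeal Q.vs)
    (S := BB L Q ⧸ mB (L := L) Q) h2
  rw [Algebra.trace_quotient_mk] at h3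
  have h4 := h3.eq_zero
  rwa [Ideal.Quotient.eq_zero_iff_mem] at h4

end traces

theorem tr0 : FR.T_TR0 := by
  intro k E L _ _ _ _ _ _ _ _ _ Q g hg htr
  have hg0 : g ≠ 0 := by
    rintro rfl
    simp at htr
  obtain ⟨b, rfl⟩ := exists_int Q g fun q => (hg _ ⟨_, pl_over Q q⟩ hg0).le
  have h1 : ∀ q : HeightOneSpectrum (BB L Q), b ∈ q.asIdeal := by
    intro q
    rw [adic_pos_iff (k := k) (K := L)]
    exact Or.inr (hg _ ⟨_, pl_over Q q⟩ hg0)
  have h2 := trace_mem Q b h1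
  rw [IsLocalRing.mem_maximalIdeal, mem_nonunits_iff, DV.isUnit_vs_iff] at h2
  rw [trace_eq] at htr ⊢
  have h3 : 0 ≤ Q.ord ((Algebra.trace Q.vs (BB L Q) b : Q.vs) : E) :=
    (Algebra.trace Q.vs (BB L Q) b).2
  rcases h3.lt_or_eq with h4 | h4
  · exact h4
  · exact absurd ⟨htr, h4.symm⟩ h2

end Pool.Agent.H62.FR
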