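import Pool.Agent.H62.FR.TR0

/-! # TR1 (helper62, MP_f2954d_ag) -/

set_option autoImplicit false
set_option linter.overlappingInstances false
set_option linter.deprecated false

namespace Pool.Agent.H62.FR

open _root_.SC IsDedekindDomain Pool.Agent.H76.KN

section tr1

variable {k E L : Type} [Field k] [Field E] [Field L] [Algebra k E] [Algebra k L]
  [Algebra E L] [IsScalarTower k E L] [CharZero k] [FiniteDimensional E L] (Q : DV k E)

/-- the maximal ideal -/
abbrev mm : Ideal Q.vs := IsLocalRing.maximalIdeal Q.vs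

instance lies (q : HeightOneSpectrum (BB L Q)) : q.asIdeal.LiesOver (mm Q) :=
  ⟨(comap_eq Q q).symm⟩

/-- exponents -/
noncomputable def ex (q : HeightOneSpectrum (BB L Q)) : ℕ := q.asIdeal.ramificationIdx Q.vs

lemma mm_ne_bot : mm Q ≠ ⊥ := by
  rw [mm, maximalIdeal_eq Q (tt Q) Q.ord_unif, Ne, Ideal.span_singleton_eq_bot]
  exact tt_ne Q

lemma ord_t (t : Q.vs) (ht : Q.ord (t : E) = 1) (q : HeightOneSpectrum (BB L Q)) :
    (pl Q q).ord (algebraMap E L (t : E)) = ex Q q := by
  have ht0 : t ≠ 0 := by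
    rintro rfl
    rw [show ((0 : Q.vs) : E) = 0 from rfl, Q.ord_zero] at ht
    omega
  exact ram_eq (k := k) (K := L) q (mm Q) t ht0 (maximalIdeal_eq Q t ht)

lemma ex_pos (q : HeightOneSpectrum (BB L Q)) : 0 < ex Q q := by
  have h1 := ord_t Q (tt Q) Q.ord_unif q
  have h2 := pl_unif_pos Q q
  rw [tt_coe] at h1
  rw [h1] at h2
  exact_mod_cast h2

lemma mem_mB (x : BB L Q) : x ∈ mB Q ↔ ∀ q : HeightOneSpectrum (BB L Q), x ∈ q.asIdeal ^ ex Q q := by
  have h0 : mB (L := L) Q = Ideal.span {algebraMap Q.vs (BB L Q) (tt Q)} := by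
    rw [mB, maximalIdeal_eq Q (tt Q) Q.ord_unif, Ideal.map_span, Set.image_singleton]
  have hne : algebraMap Q.vs (BB L Q) (tt Q) ≠ 0 := by
    intro h
    have h2 := congrArg (algebraMap (BB L Q) L) h
    rw [algebraMap_tt, map_zero, map_eq_zero] at h2
    exact absurd h2 Q.unif_ne_zero
  constructor
  · intro hx q
    have h1 : mB (L := L) Q ≤ q.asIdeal ^ ex Q q := by
      rw [h0, Ideal.span_singleton_le_iff_mem, ← adic_le_iff (k := k) (K := L) q _ _ hne]
      exact (ord_t Q (tt Q) Q.ord_unif q).ge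
    exact h1 hx
  · intro hx
    by_cases hx0 : x = 0
    · rw [hx0]; exact Ideal.zero_mem _
    have hxL : algebraMap (BB L Q) L x ≠ 0 := by simpa using hx0
    have huL : algebraMap E L Q.unif ≠ 0 := (map_ne_zero _).mpr Q.unif_ne_zero
    obtain ⟨b, hb⟩ := exists_int Q (algebraMap (BB L Q) L x / algebraMap E L Q.unif) (by
      intro q
      have h1 := (adic_le_iff (k := k) (K := L) q _ _ hx0).2 (hx q)
      have h2 := ord_t Q (tt Q) Q.ord_unif q
      rw [tt_coe] at h2
      rw [(pl Q q).ord_div hxL huL, h2]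
      have h3 : (pl Q q).ord (algebraMap (BB L Q) L x) =
        (adic k (BB L Q) L q).ord (algebraMap (BB L Q) L x) := rfl
      omega)
    rw [h0, Ideal.mem_span_singleton]
    refine ⟨b, ?_⟩
    apply (IsFractionRing.injective (BB L Q) L)
    rw [map_mul, hb, algebraMap_tt]
    field_simp

lemma finite_hos : Finite (HeightOneSpectrum (BB L Q)) := by
  have h := Ideal.finite_factors (mB_ne_bot (L := L) Q)
  have h2 : {v : HeightOneSpectrum (BB L Q) | v.asIdeal ∣ mB Q} = Set.univ := by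
    ext v
    simp only [Set.mem_ofPred_eq, Set.mem_univ, iff_true]
    rw [Ideal.dvd_iff_le]
    intro x hx
    exact Ideal.pow_le_self (ex_pos Q v).ne' ((mem_mB Q x).1 hx v)
  rw [h2] at h
  exact Set.finite_univ_iff.1 h

open Classical in
lemma exists_u (q : HeightOneSpectrum (BB L Q)) : ∃ u : BB L Q, ∀ q' : HeightOneSpectrum (BB L Q),
    u - (if q' = q then 1 else 0) ∈ q'.asIdeal ^ ex Q q' := by
  have := finite_hos (L := L) Q
  have := Fintype.ofFinite (HeightOneSpectrum (BB L Q))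
  obtain ⟨y, hy⟩ := IsDedekindDomain.exists_forall_sub_mem_ideal (s := Finset.univ)
    (fun q' : HeightOneSpectrum (BB L Q) => q'.asIdeal) (fun q' => ex Q q')
    (fun q' _ => q'.prime) (fun i _ j _ hij h => hij (HeightOneSpectrum.ext h))
    (fun q' => if q'.1 = q then 1 else 0)
  exact ⟨y, fun q' => hy q' (Finset.mem_univ _)⟩

lemma surj_of_deg (hdeg : Q.deg = 1) : Function.Surjective (algebraMap k (Q.vs ⧸ mm Q)) := by
  have h1 : Module.finrank k Q.Res = 1 := hdeg
  have h2 : Subalgebra.toSubmodule (⊥ : Subalgebra k Q.Res) = ⊤ := by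
    have := Subalgebra.bot_eq_top_of_finrank_eq_one h1
    rw [this]; rfl
  intro y
  have h3 : ∀ z : Q.Res, ∃ c : k, algebraMap k Q.Res c = z := by
    intro z
    have h4 : z ∈ Subalgebra.toSubmodule (⊥ : Subalgebra k Q.Res) := by
      rw [h2]; trivial
    rw [Subalgebra.mem_toSubmodule, Algebra.mem_bot] at h4
    exact h4
  exact h3 y

attribute [local instance] Ideal.Quotient.field

lemma finrank_pow (q : HeightOneSpectrum (BB L Q)) (hdeg : Q.deg = 1) :
    Module.finrank (Q.vs ⧸ mm Q) (BB L Q ⧸ q.asIdeal ^ Ideal.ramificationIdx' (mm Q) q.asIdeal) =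
      ex Q q * (pl Q q).deg := by
  have hq := q.isPrime
  have hqm : q.asIdeal.IsMaximal := hq.isMaximal q.ne_bot
  have he : Ideal.ramificationIdx' (mm Q) q.asIdeal = ex Q q :=
    Ideal.ramificationIdx'_eq_ramificationIdx (mm Q) q.asIdeal (mm_ne_bot Q)
  have h0 : Ideal.ramificationIdx' (mm Q) q.asIdeal ≠ 0 := by
    rw [he]; exact (ex_pos Q q).ne'
  rw [Ideal.finrank_prime_pow_ramificationIdx (mm Q) q.asIdeal q.ne_bot h0]
  refine congrArg₂ (· * ·) he ?_
  rw [deg_eq (k := k) (K := L) q (mm Q) (surj_of_deg Q hdeg),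
    ← Ideal.inertiaDeg'_eq_inertiaDeg (mm Q) q.asIdeal, Ideal.inertiaDeg'_algebraMap]

lemma mB_le (q : HeightOneSpectrum (BB L Q)) :
    mB Q ≤ q.asIdeal ^ Ideal.ramificationIdx' (mm Q) q.asIdeal := by
  have hq := q.isPrime
  have he : Ideal.ramificationIdx' (mm Q) q.asIdeal = ex Q q :=
    Ideal.ramificationIdx'_eq_ramificationIdx (mm Q) q.asIdeal (mm_ne_bot Q)
  rw [he]
  intro x hx
  exact (mem_mB Q x).1 hx q

/-- the projection to a factor -/
noncomputable def pr (q : HeightOneSpectrum (BB L Q)) : (BB L Q ⧸ mB (L := L) Q) →ₗ[Q.vs ⧸ mm Q]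
    (BB L Q ⧸ q.asIdeal ^ Ideal.ramificationIdx' (mm Q) q.asIdeal) where
  toFun := Ideal.Quotient.factor (mB_le Q q)
  map_add' := fun x y => map_add _ x y
  map_smul' := by
    intro c x
    obtain ⟨c, rfl⟩ := Ideal.Quotient.mk_surjective c
    obtain ⟨x, rfl⟩ := Ideal.Quotient.mk_surjective x
    rw [Algebra.smul_def, map_mul]
    simp only [RingHom.id_apply]
    rw [Algebra.smul_def]
    rfl

lemma pr_mk (q : HeightOneSpectrum (BB L Q)) (x : BB L Q) :
    pr Q q (Ideal.Quotient.mk _ x) = Ideal.Quotient.mk _ x := rfl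

open Classical in
lemma trace_u (hdeg : Q.deg = 1) (q : HeightOneSpectrum (BB L Q)) (u : BB L Q)
    (hu : ∀ q' : HeightOneSpectrum (BB L Q), u - (if q' = q then 1 else 0) ∈ q'.asIdeal ^ ex Q q') :
    Algebra.trace Q.vs (BB L Q) u - ((ex Q q * (pl Q q).deg : ℕ) : Q.vs) ∈ mm Q := by
  have he : Ideal.ramificationIdx' (mm Q) q.asIdeal = ex Q q := by
    have hq := q.isPrime
    exact Ideal.ramificationIdx'_eq_ramificationIdx (mm Q) q.asIdeal (mm_ne_bot Q)
  rw [← Ideal.Quotient.eq, ← Algebra.trace_quotient_mk, map_natCast, Algebra.trace_apply]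
  set f : (BB L Q ⧸ mB Q) →ₗ[Q.vs ⧸ mm Q] (BB L Q ⧸ mB Q) :=
    Algebra.lmul (Q.vs ⧸ mm Q) (BB L Q ⧸ mB Q) (Ideal.Quotient.mk _ u) with hf
  have hfx : ∀ x : BB L Q, f (Ideal.Quotient.mk _ x) = Ideal.Quotient.mk _ (u * x) := by
    intro x
    rw [hf, map_mul]
    rfl
  have hidem : u * u - u ∈ mB Q := by
    rw [mem_mB]
    intro q'
    by_cases h : q' = q
    · have h1 := hu q'
      rw [if_pos h] at h1
      have h2 : u * u - u = u * (u - 1) := by ring
      rw [h2]
      exact Ideal.mul_mem_left _ _ h1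
    · have h1 := hu q'
      rw [if_neg h, sub_zero] at h1
      have h2 : u * u - u = (u - 1) * u := by ring
      rw [h2]
      exact Ideal.mul_mem_left _ _ h1
  have hproj : LinearMap.IsProj (LinearMap.range f) f := by
    refine ⟨fun x => LinearMap.mem_range_self f x, ?_⟩
    rintro _ ⟨x, rfl⟩
    obtain ⟨x, rfl⟩ := Ideal.Quotient.mk_surjective x
    rw [hfx, hfx, Ideal.Quotient.eq]
    have h2 : u * (u * x) - u * x = x * (u * u - u) := by ring
    rw [h2]
    exact Ideal.mul_mem_left _ _ hidem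
  have hker : LinearMap.ker f = LinearMap.ker (pr Q q) := by
    ext x
    obtain ⟨x, rfl⟩ := Ideal.Quotient.mk_surjective x
    rw [LinearMap.mem_ker, LinearMap.mem_ker, hfx, pr_mk, Ideal.Quotient.eq_zero_iff_mem,
      Ideal.Quotient.eq_zero_iff_mem, he, mem_mB]
    constructor
    · intro h
      have h1 := hu q
      rw [if_pos rfl] at h1
      have h2 : x = u * x - x * (u - 1) := by ring
      rw [h2]
      exact Ideal.sub_mem _ (h q) (Ideal.mul_mem_left _ _ h1)
    · intro h q'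
      by_cases h3 : q' = q
      · rw [h3]
        exact Ideal.mul_mem_left _ _ h
      · have h1 := hu q'
        rw [if_neg h3, sub_zero] at h1
        exact Ideal.mul_mem_right _ _ h1
  have hfin : Module.Finite (Q.vs ⧸ mm Q) (BB L Q ⧸ mB (L := L) Q) := inferInstance
  have hsurj : LinearMap.range (pr Q q) = ⊤ := by
    rw [LinearMap.range_eq_top]
    intro y
    obtain ⟨y, rfl⟩ := Ideal.Quotient.mk_surjective y
    exact ⟨Ideal.Quotient.mk _ y, rfl⟩
  have hdim : Module.finrank (Q.vs ⧸ mm Q) (LinearMap.range f) = ex Q q * (pl Q q).deg := by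
    have h1 := LinearMap.finrank_range_add_finrank_ker f
    have h2 := LinearMap.finrank_range_add_finrank_ker (pr Q q)
    rw [hsurj, finrank_top, finrank_pow Q q hdeg] at h2
    rw [hker] at h1
    omega
  rw [← hdim]
  exact hproj.trace

end tr1

open Classical in
theorem tr1 : FR.T_TR1 := by
  intro k E L _ _ _ _ _ _ _ _ _ Q t g c ht hdeg hc
  have hfin := finite_hos (L := L) Q
  have hft := Fintype.ofFinite (HeightOneSpectrum (BB L Q))
  have hset : {P : DV k L | ∃ e, Over Q P e} = Set.range (pl (L := L) Q) := by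
    ext P
    constructor
    · rintro ⟨e, he⟩; exact exists_pl Q P e he
    · rintro ⟨q, rfl⟩; exact ⟨_, pl_over Q q⟩
  refine ⟨by rw [hset]; exact Set.finite_range _, ?_⟩
  -- g is integral
  obtain ⟨b, rfl⟩ := exists_int Q g (by
    intro q
    rcases hc (pl Q q) ⟨_, pl_over Q q⟩ with h | h
    · rw [h, (pl Q q).ord_base]
    · have h1 := (pl Q q).ord_add_nonneg h.le ((pl Q q).ord_base (c (pl Q q))).ge
      rwa [sub_add_cancel] at h1)
  have hb : ∀ q : HeightOneSpectrum (BB L Q), b - algebraMap k (BB L Q) (c (pl Q q)) ∈ q.asIdeal := by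
    intro q
    rw [adic_pos_iff (k := k) (K := L), map_sub, ← IsScalarTower.algebraMap_apply]
    rcases hc (pl Q q) ⟨_, pl_over Q q⟩ with h | h
    · left
      rw [sub_eq_zero]
      apply IsFractionRing.injective (BB L Q) L
      rw [h, ← IsScalarTower.algebraMap_apply]
    · right; exact h
  choose u hu using exists_u (L := L) Q
  have hsum : ∀ q : HeightOneSpectrum (BB L Q),
      b - ∑ q', algebraMap k (BB L Q) (c (pl Q q')) * u q' ∈ q.asIdeal := by
    intro q
    have h1 : b - ∑ q', algebraMap k (BB L Q) (c (pl Q q')) * u q' =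
        (b - algebraMap k (BB L Q) (c (pl Q q))) -
        ∑ q', algebraMap k (BB L Q) (c (pl Q q')) * (u q' - if q = q' then 1 else 0) := by
      simp only [mul_sub, Finset.sum_sub_distrib, mul_ite, mul_one, mul_zero,
        Finset.sum_ite_eq, Finset.mem_univ, if_true]
      ring
    rw [h1]
    refine Ideal.sub_mem _ (hb q) (Ideal.sum_mem _ fun q' _ => Ideal.mul_mem_left _ _ ?_)
    exact Ideal.pow_le_self (ex_pos Q q).ne' (hu q' q)
  have htr := trace_mem Q _ hsum
  have hfinal : Algebra.trace Q.vs (BB L Q) b -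
      ∑ q : HeightOneSpectrum (BB L Q), algebraMap k Q.vs (c (pl Q q)) *
        ((ex Q q * (pl Q q).deg : ℕ) : Q.vs) ∈ mm Q := by
    have h1 : Algebra.trace Q.vs (BB L Q) b -
        ∑ q : HeightOneSpectrum (BB L Q), algebraMap k Q.vs (c (pl Q q)) *
        ((ex Q q * (pl Q q).deg : ℕ) : Q.vs) =
        Algebra.trace Q.vs (BB L Q) (b - ∑ q', algebraMap k (BB L Q) (c (pl Q q')) * u q') +
        ∑ q : HeightOneSpectrum (BB L Q), algebraMap k Q.vs (c (pl Q q)) *
          (Algebra.trace Q.vs (BB L Q) (u q) - ((ex Q q * (pl Q q).deg : ℕ) : Q.vs)) := by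
      have h2 : Algebra.trace Q.vs (BB L Q) (∑ q', algebraMap k (BB L Q) (c (pl Q q')) * u q') =
          ∑ q', algebraMap k Q.vs (c (pl Q q')) * Algebra.trace Q.vs (BB L Q) (u q') := by
        rw [map_sum]
        refine Finset.sum_congr rfl fun q' _ => ?_
        rw [IsScalarTower.algebraMap_apply k Q.vs (BB L Q), ← Algebra.smul_def, map_smul, smul_eq_mul]
      rw [map_sub, h2]
      simp only [mul_sub, Finset.sum_sub_distrib]
      ring
    rw [h1]
    refine Ideal.add_mem _ htr (Ideal.sum_mem _ fun q _ => Ideal.mul_mem_left _ _ ?_)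
    exact trace_u Q hdeg q (u q) (hu q)
  -- the sum over the places
  have hsum2 : (∑ᶠ P : {P : DV k L // ∃ e, Over Q P e},
      (P.1.deg : k) * (P.1.ord (algebraMap E L t) : k) * c P.1) =
      ∑ q : HeightOneSpectrum (BB L Q), c (pl Q q) * ((ex Q q * (pl Q q).deg : ℕ) : k) := by
    rw [← finsum_eq_sum_of_fintype]
    symm
    refine finsum_eq_of_bijective (fun q => ⟨pl Q q, ⟨_, pl_over Q q⟩⟩) ⟨?_, ?_⟩ ?_
    · intro q q' h
      exact pl_injective Q (congrArg Subtype.val h)
    · rintro ⟨P, e, he⟩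
      obtain ⟨q, hq⟩ := exists_pl Q P e he
      exact ⟨q, Subtype.ext hq⟩
    · intro q
      have h1 := ord_t Q (⟨t, by rw [Q.mem_vs, ht]; norm_num⟩ : Q.vs) ht q
      simp only at h1 ⊢
      rw [h1]
      push_cast
      ring
  rw [hsum2, trace_eq]
  have hcast : algebraMap k E (∑ q : HeightOneSpectrum (BB L Q), c (pl Q q) *
      ((ex Q q * (pl Q q).deg : ℕ) : k)) = ((∑ q : HeightOneSpectrum (BB L Q),
        algebraMap k Q.vs (c (pl Q q)) * ((ex Q q * (pl Q q).deg : ℕ) : Q.vs) : Q.vs) : E) := by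
    rw [← Q.algebraMap_vs_coe]
    congr 1
    simp only [map_sum, map_mul, map_natCast]
  unfold _root_.FR.Cong
  rw [hcast]
  rw [mm, IsLocalRing.mem_maximalIdeal, mem_nonunits_iff, DV.isUnit_vs_iff] at hfinal
  push_cast at hfinal ⊢
  by_cases h0 : ((Algebra.trace Q.vs (BB L Q) b : Q.vs) : E) = ∑ q : HeightOneSpectrum (BB L Q),
        ((algebraMap k Q.vs (c (pl Q q)) : Q.vs) : E) * ((ex Q q : E) * ((pl Q q).deg : E))
  · left; exact h0
  · right
    have h1 : 0 ≤ Q.ord ((Algebra.trace Q.vs (BB L Q) b -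
      ∑ q : HeightOneSpectrum (BB L Q), algebraMap k Q.vs (c (pl Q q)) *
        ((ex Q q * (pl Q q).deg : ℕ) : Q.vs) : Q.vs) : E) :=
      (Algebra.trace Q.vs (BB L Q) b -
      ∑ q : HeightOneSpectrum (BB L Q), algebraMap k Q.vs (c (pl Q q)) *
        ((ex Q q * (pl Q q).deg : ℕ) : Q.vs) : Q.vs).2
    push_cast at h1
    rcases h1.lt_or_eq with h2 | h2
    · exact h2
    · exact absurd ⟨sub_ne_zero.mpr h0, h2.symm⟩ hfinal

end Pool.Agent.H62.FR
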